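import Pool.Agent.helper65.GD.SpecD

/-! # Row `FNK` of project gdm: the theorem for close-to-convex functions -/

set_option autoImplicit false

namespace Pool.Agent.GD

open Finset Metric Filter Topology

theorem FNK_dil (hCO1 : CO1_stmt) (hCO2 : CO2_stmt) (f : ℂ → ℂ) (hf : DifferentiableOn ℂ f (ball 0 1))
    (r : ℝ) (hr0 : 0 < r) (hr1 : r < 1)
    (hfr : DifferentiableOn ℂ (fun z => f (r * z)) (ball 0 1)) (m : ℕ) :
    N2b689f5b.coeff (fun z => f (r * z)) m = (r : ℂ) ^ m * N2b689f5b.coeff f m := by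
  have h1 : Ser (fun m => (r : ℂ) ^ m * N2b689f5b.coeff f m) (fun z => f (r * z)) := by
    intro z hz
    have hz1 : ‖z‖ < 1 := mem_ball_zero_iff.1 hz
    have h2 : (r : ℂ) * z ∈ ball (0 : ℂ) 1 := by
      rw [mem_ball_zero_iff, norm_mul, Complex.norm_real, Real.norm_eq_abs, abs_of_pos hr0]
      nlinarith [norm_nonneg z]
    have h3 := hCO1 f hf _ h2
    have e : (fun n => N2b689f5b.coeff f n * ((r : ℂ) * z) ^ n) =
        fun n => (r : ℂ) ^ n * N2b689f5b.coeff f n * z ^ n := by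
      funext n
      rw [mul_pow]
      ring
    rw [e] at h3
    exact h3
  have h4 := hCO2 _ _ _ (hCO1 _ hfr) h1
  exact congrFun h4 m

theorem FNK_AA (p n : ℕ) (f : ℂ → ℂ) :
    N2b689f5b.goodmanBound f p n = ∑ j ∈ Icc 1 p, AA p n j * ‖N2b689f5b.coeff f j‖ := rfl

theorem FNK (hCO1 : CO1_stmt) (hCO2 : CO2_stmt) (hDIL : DIL_stmt) (hRPK : RPK_stmt)
    (hGLK : GLK_stmt) : FNK_stmt := by
  intro f F p n hc hpn
  have hp1 : 1 ≤ p := hc.star.one_le
  obtain ⟨ρ, hρ, hd⟩ := hDIL f F p hc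
  set C : ℕ → ℂ := N2b689f5b.coeff f with hC
  have key : ∀ r : ℝ, max ρ 0 < r → r < 1 →
      r ^ n * ‖C n‖ ≤ ∑ j ∈ Icc 1 p, AA p n j * (r ^ j * ‖C j‖) := by
    intro r hr hr1
    have hr0 : 0 < r := (le_max_right _ _).trans_lt hr
    obtain ⟨R, a, b, g, U, hct⟩ := hd r ((le_max_left _ _).trans_lt hr) hr1
    obtain ⟨c, b, μ, κ, G, τ, hb, hpos, hrec, hμ, hκ, hco⟩ := hRPK _ _ p R a b g U hct
    have hfr : DifferentiableOn ℂ (fun z => f (r * z)) (ball 0 1) :=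
      hct.analytic.mono (ball_subset_ball hct.one_lt.le)
    have hdil := FNK_dil hCO1 hCO2 f hc.analytic r hr0 hr1 hfr
    obtain ⟨k, rfl⟩ : ∃ k, n = p + k := ⟨n - p, by omega⟩
    have h1 := hGLK p k μ κ τ b (fun n => ∑ q ∈ range (n + 1), EE τ κ b q * G (n - q)) G hp1
      (by omega) hμ hκ hb hpos hrec (fun n => rfl)
    have hB : ∀ m : ℕ, ‖c‖ * ‖∑ q ∈ range (m + 1), EE τ κ b q * G (m - q)‖ =
        (m : ℝ) * (r ^ m * ‖C m‖) := by
      intro m
      rw [← norm_mul, ← hco m, hdil m, norm_mul, norm_mul, norm_pow, Complex.norm_real,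
        Real.norm_eq_abs, abs_of_pos hr0, Complex.norm_natCast]
    have h2 := mul_le_mul_of_nonneg_left h1 (norm_nonneg c)
    rw [hB, Finset.mul_sum] at h2
    have h3 : ∀ j ∈ Icc 1 p, ‖c‖ * (((p : ℝ) + k) / j * (AA p (p + k) j *
        ‖∑ q ∈ range (j + 1), EE τ κ b q * G (j - q)‖)) =
        ((p : ℝ) + k) * (AA p (p + k) j * (r ^ j * ‖C j‖)) := by
      intro j hj
      have hj1 : (0 : ℝ) < j := by
        have := (Finset.mem_Icc.1 hj).1
        exact_mod_cast this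
      calc ‖c‖ * (((p : ℝ) + k) / j * (AA p (p + k) j *
            ‖∑ q ∈ range (j + 1), EE τ κ b q * G (j - q)‖))
          = ((p : ℝ) + k) / j * AA p (p + k) j *
            (‖c‖ * ‖∑ q ∈ range (j + 1), EE τ κ b q * G (j - q)‖) := by ring
        _ = ((p : ℝ) + k) / j * AA p (p + k) j * ((j : ℝ) * (r ^ j * ‖C j‖)) := by rw [hB]
        _ = ((p : ℝ) + k) * (AA p (p + k) j * (r ^ j * ‖C j‖)) := by field_simp
    rw [Finset.sum_congr rfl h3, ← Finset.mul_sum, Nat.cast_add] at h2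
    have h4 : (0 : ℝ) < (p : ℝ) + k := by
      have : (0 : ℝ) < p := by exact_mod_cast hp1
      positivity
    exact le_of_mul_le_mul_left h2 h4
  rw [FNK_AA]
  have t1 : Tendsto (fun r : ℝ => r ^ n * ‖C n‖) (𝓝[<] 1) (𝓝 (1 ^ n * ‖C n‖)) := by
    apply Tendsto.mono_left _ nhdsWithin_le_nhds
    exact ((continuous_id.pow n).mul continuous_const).tendsto 1
  have t2 : Tendsto (fun r : ℝ => ∑ j ∈ Icc 1 p, AA p n j * (r ^ j * ‖C j‖)) (𝓝[<] 1)
      (𝓝 (∑ j ∈ Icc 1 p, AA p n j * (1 ^ j * ‖C j‖))) := by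
    apply Tendsto.mono_left _ nhdsWithin_le_nhds
    exact (continuous_finsetSum _ fun j _ =>
      continuous_const.mul ((continuous_id.pow j).mul continuous_const)).tendsto 1
  have h5 := le_of_tendsto_of_tendsto t1 t2 (by
    have hlt : max ρ 0 < 1 := max_lt hρ one_pos
    filter_upwards [Ioo_mem_nhdsLT hlt] with r hr
    exact key r hr.1 hr.2)
  simp only [one_pow, one_mul] at h5
  exact h5

end Pool.Agent.GD
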