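import Pool.Agent.helper65.GD.SpecB

/-! # Row `RAD` of project gdm: good radii -/

set_option autoImplicit false

namespace Pool.Agent.GD

open Finset Metric Filter Topology

theorem RAD_bd (t : Finset ℂ) (h : ∀ z ∈ t, ‖z‖ < 1) : ∃ m : ℝ, m < 1 ∧ ∀ z ∈ t, ‖z‖ ≤ m := by
  classical
  induction t using Finset.induction_on with
  | empty => exact ⟨0, one_pos, fun z hz => absurd hz (Finset.notMem_empty z)⟩
  | insert a s ha ih =>
    obtain ⟨m, hm, hb⟩ := ih fun z hz => h z (Finset.mem_insert_of_mem hz)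
    refine ⟨max m ‖a‖, max_lt hm (h a (Finset.mem_insert_self a s)), fun z hz => ?_⟩
    rcases Finset.mem_insert.1 hz with rfl | hz
    · exact le_max_right _ _
    · exact (hb z hz).trans (le_max_left _ _)

theorem RAD : RAD_stmt := by
  classical
  intro f p w t hf ht
  obtain ⟨a, g, ha, hg, hg0, hfg⟩ := hf.zeros
  obtain ⟨ρ, hρ, hst⟩ := hf.starlike
  obtain ⟨m, hm1, hm⟩ := RAD_bd (t ∪ Finset.univ.image a) (by
    intro z hz
    rcases Finset.mem_union.1 hz with hz | hz
    · exact ht z hz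
    · obtain ⟨l, _, rfl⟩ := Finset.mem_image.1 hz
      exact mem_ball_zero_iff.1 (ha l))
  set M : ℝ := max (max m ρ) 0 with hM
  have hM1 : M < 1 := max_lt (max_lt hm1 hρ) one_pos
  have hM0 : 0 ≤ M := le_max_right _ _
  have hMm : m ≤ M := (le_max_left _ _).trans (le_max_left _ _)
  have hMρ : ρ ≤ M := (le_max_right _ _).trans (le_max_left _ _)
  set R : ℝ := (M + 1) / 2 with hR
  have hMR : M < R := by rw [hR]; linarith
  have hR1 : R < 1 := by rw [hR]; linarith
  have hsub : closedBall (0 : ℂ) R ⊆ ball 0 1 := closedBall_subset_ball hR1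
  have han : AnalyticOnNhd ℂ f (closedBall 0 R) :=
    (hf.analytic.analyticOnNhd isOpen_ball).mono hsub
  have hfin : ({z ∈ closedBall (0 : ℂ) R | f z = w}).Finite := by
    rcases han.eqOn_or_eventually_ne_of_preconnected (analyticOnNhd_const (v := w))
      (convex_closedBall (0 : ℂ) R).isPreconnected with h | h
    · exfalso
      have h0 : f 0 = w := h (mem_closedBall_self (hM0.trans hMR.le))
      set s : ℝ := (M + R) / 2 with hs
      have hs1 : M < s := by rw [hs]; linarith
      have hs2 : s < R := by rw [hs]; linarith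
      have hsn : ‖((s : ℝ) : ℂ)‖ = s := by
        rw [Complex.norm_real, Real.norm_eq_abs, abs_of_nonneg (hM0.trans hs1.le)]
      have h1 : f (s : ℂ) = w := h (by rw [mem_closedBall_zero_iff, hsn]; exact hs2.le)
      have h2 : f (s : ℂ) = 0 := by rw [h1, ← h0, hf.map_zero]
      have h3 := hst (s : ℂ) (by rw [hsn]; exact hMρ.trans_lt hs1) (by rw [hsn]; linarith)
      rw [h2, div_zero, Complex.zero_re] at h3
      exact lt_irrefl _ h3
    · have h1 := (isCompact_closedBall (0 : ℂ) R).finite_sdiff_of_mem_codiscreteWithin h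
      refine h1.subset ?_
      intro z hz
      exact ⟨hz.1, fun hz2 => hz2 hz.2⟩
  have hinf : (Set.Ioo M R \ ((fun z : ℂ => ‖z‖) '' {z ∈ closedBall (0 : ℂ) R | f z = w})).Infinite :=
    (Set.Ioo_infinite hMR).sdiff (hfin.image _)
  obtain ⟨r, ⟨hr1, hr2⟩, hr3⟩ := hinf.nonempty
  refine ⟨r, a, g, hr2.trans hR1, ⟨hM0.trans_lt hr1, hr2.trans hR1, ?_, hg, hg0, hfg⟩, ?_, ?_, ?_⟩
  · intro l
    exact (hm (a l) (Finset.mem_union_right _ (Finset.mem_image_of_mem a (Finset.mem_univ l)))).trans_lt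
      (hMm.trans_lt hr1)
  · intro z hz
    exact (hm z (Finset.mem_union_left _ hz)).trans_lt (hMm.trans_lt hr1)
  · intro z hz hfz
    exact hr3 ⟨z, ⟨by rw [mem_closedBall_zero_iff, hz]; exact hr2.le, hfz⟩, hz⟩
  · intro z hz
    exact hst z (by rw [hz]; exact hMρ.trans_lt hr1) (by rw [hz]; exact hr2.trans hR1)

end Pool.Agent.GD
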